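import Pool.Agent.helper5.SYM.SpecB

/-!
# Project sy: rows NB4, TW4
-/

set_option autoImplicit false

namespace Pool.Agent.SYM
open Finset CT Polynomial

section aux
variable {V A : Type} [AddCommGroup A] {G : SimpleGraph V}

theorem NB4_sd_fst (σ : G ≃g G) (d : G.Dart) : (sd σ d).fst = σ d.fst := rfl

theorem NB4_sd_snd (σ : G ≃g G) (d : G.Dart) : (sd σ d).snd = σ d.snd := rfl

theorem NB4_dart_ext {d d' : G.Dart} (h1 : d.fst = d'.fst) (h2 : d.snd = d'.snd) : d = d' := by
  apply SimpleGraph.Dart.ext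
  exact Prod.ext h1 h2

theorem NB4_sd_add (θ : A → (G ≃g G)) (h : ∀ a b v, θ (a + b) v = θ a (θ b v)) (a b : A)
    (d : G.Dart) : sd (θ (a + b)) d = sd (θ a) (sd (θ b) d) :=
  NB4_dart_ext (h a b _) (h a b _)

theorem NB4_sd_zero (θ : A → (G ≃g G)) (h : ∀ v, θ 0 v = v) (d : G.Dart) : sd (θ 0) d = d :=
  NB4_dart_ext (h _) (h _)

/-- The darts at a vertex. -/
theorem NB4_card (hG : FourRegular G) (v : V) : Nat.card {d : G.Dart // d.fst = v} = 4 := by
  rw [← hG v]
  refine Nat.card_congr ⟨fun d => ⟨d.1.snd, ?_⟩, fun w => ⟨⟨(v, w.1), w.2⟩, rfl⟩, ?_, ?_⟩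
  · have h := d.1.adj
    rw [d.2] at h
    exact h
  · rintro ⟨d, hd⟩
    apply Subtype.ext
    exact NB4_dart_ext hd.symm rfl
  · rintro ⟨w, hw⟩
    rfl

/-- The stabiliser. -/
def NB4_st (θ : A → (G ≃g G)) (h : ∀ a b v, θ (a + b) v = θ a (θ b v)) (h0 : ∀ v, θ 0 v = v)
    (v : V) : AddSubgroup A where
  carrier := {a | θ a v = v}
  add_mem' := by
    intro a b ha hb
    simp only [Set.mem_setOf_eq] at *
    rw [h, hb, ha]
  zero_mem' := h0 v
  neg_mem' := by
    intro a ha
    simp only [Set.mem_setOf_eq] at *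
    have h1 : θ (-a + a) v = v := by rw [neg_add_cancel]; exact h0 v
    rw [h, ha] at h1
    exact h1

theorem NB4_mem (θ : A → (G ≃g G)) (h : ∀ a b v, θ (a + b) v = θ a (θ b v))
    (h0 : ∀ v, θ 0 v = v) (v : V) (a : A) : a ∈ NB4_st θ h h0 v ↔ θ a v = v := Iff.rfl

theorem NB4_div [Finite A] (hA : Nat.card A = 4) (S : AddSubgroup A) :
    Nat.card S = 1 ∨ Nat.card S = 2 ∨ Nat.card S = 4 := by
  have h1 : Nat.card S ∣ 4 := by
    rw [← hA]
    exact AddSubgroup.card_addSubgroup_dvd_card S
  have h2 : Nat.card S ≤ 4 := Nat.le_of_dvd (by norm_num) h1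
  interval_cases h3 : Nat.card S
  · omega
  · left; rfl
  · right; left; rfl
  · omega
  · right; right; rfl

/-- A subgroup of order 2. -/
theorem NB4_two [Finite A] (S : AddSubgroup A) (hS : Nat.card S = 2) :
    ∃ g : A, g ∈ O2 A ∧ ∀ a, a ∈ S ↔ a = 0 ∨ a = g := by
  haveI : Finite S := Nat.finite_of_card_ne_zero (by rw [hS]; norm_num)
  obtain ⟨x, y, hxy, hall⟩ := Nat.card_eq_two_iff.1 hS
  have hz : ∃ g : S, g ≠ 0 ∧ ∀ a : S, a = 0 ∨ a = g := by
    have h0 : (0 : S) ∈ ({x, y} : Set S) := by rw [hall]; trivial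
    rcases h0 with h0 | h0
    · refine ⟨y, by rw [h0]; exact hxy.symm, fun a => ?_⟩
      have ha : a ∈ ({x, y} : Set S) := by rw [hall]; trivial
      rcases ha with ha | ha
      · left; rw [ha, h0]
      · right; exact ha
    · have h0' : (0 : S) = y := h0
      refine ⟨x, by rw [h0']; exact hxy, fun a => ?_⟩
      have ha : a ∈ ({x, y} : Set S) := by rw [hall]; trivial
      rcases ha with ha | ha
      · right; exact ha
      · left; rw [h0']; exact ha
  obtain ⟨g, hg0, hg⟩ := hz
  refine ⟨g.1, ⟨fun h => hg0 (Subtype.ext h), ?_⟩, fun a => ⟨fun ha => ?_, ?_⟩⟩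
  · rcases hg (g + g) with h | h
    · exact congrArg Subtype.val h
    · exfalso
      apply hg0
      have : g + g = g + 0 := by rw [h, add_zero]
      exact add_left_cancel this
  · rcases hg ⟨a, ha⟩ with h | h
    · left; exact congrArg Subtype.val h
    · right; exact congrArg Subtype.val h
  · rintro (rfl | rfl)
    · exact S.zero_mem
    · exact g.2

/-- The representatives of the darts at a vertex. -/
theorem NB4_loc [Fintype V] [Fintype A] (θ : A → (G ≃g G)) (hA : Nat.card A = 4)
    (hG : FourRegular G)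
    (h : ∀ a b v, θ (a + b) v = θ a (θ b v)) (h0 : ∀ v, θ 0 v = v) (hY : ∀ d, Yf θ d) (v : V) :
    ∃ f : Fin 4 → G.Dart, (∀ i, (f i).fst = v) ∧
      (Nat.card (NB4_st θ h h0 v) = 1 →
        Function.Injective f ∧ ∀ d : G.Dart, d.fst = v → ∃ i, d = f i) ∧
      (Nat.card (NB4_st θ h h0 v) = 2 → ∀ g ∈ O2 A, θ g v = v →
        f 1 ≠ f 0 ∧ f 1 ≠ sd (θ g) (f 0) ∧ ∀ d : G.Dart, d.fst = v →
          d = f 0 ∨ d = sd (θ g) (f 0) ∨ d = f 1 ∨ d = sd (θ g) (f 1)) ∧
      (Nat.card (NB4_st θ h h0 v) = 4 → ∀ d : G.Dart, d.fst = v → ∃ a, d = sd (θ a) (f 0)) := by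
  classical
  have hc := NB4_card hG v
  have hfin : Finite {d : G.Dart // d.fst = v} :=
    Nat.finite_of_card_ne_zero (by rw [hc]; norm_num)
  haveI := Fintype.ofFinite {d : G.Dart // d.fst = v}
  have hc' : Fintype.card {d : G.Dart // d.fst = v} = 4 := by
    rw [← Nat.card_eq_fintype_card]; exact hc
  rcases NB4_div hA (NB4_st θ h h0 v) with h1 | h1 | h1
  · -- trivial stabiliser
    have e : Fin 4 ≃ {d : G.Dart // d.fst = v} := (Fintype.equivFinOfCardEq hc').symm
    refine ⟨fun i => (e i).1, fun i => (e i).2, fun _ => ⟨?_, ?_⟩, ?_, ?_⟩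
    · intro i j hij
      exact e.injective (Subtype.ext hij)
    · intro d hd
      refine ⟨e.symm ⟨d, hd⟩, ?_⟩
      simp
    · intro h2; omega
    · intro h2; omega
  · -- order 2
    obtain ⟨g, hg, hst⟩ := NB4_two _ h1
    have hgv : θ g v = v := (hst g).2 (Or.inr rfl)
    have hne : Nonempty {d : G.Dart // d.fst = v} := by
      rw [← Fintype.card_pos_iff, hc']; norm_num
    obtain ⟨⟨d0, hd0⟩⟩ := hne
    have hgd0 : (sd (θ g) d0).fst = v := by rw [NB4_sd_fst, hd0, hgv]
    have hgg : ∀ d, sd (θ g) (sd (θ g) d) = d := by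
      intro d
      rw [← NB4_sd_add θ h, hg.2, NB4_sd_zero θ h0]
    have hfree : ∀ d, sd (θ g) d ≠ d := fun d hd => hg.1 (hY d g hd)
    have hex : ∃ d1 : {d : G.Dart // d.fst = v}, d1.1 ≠ d0 ∧ d1.1 ≠ sd (θ g) d0 := by
      by_contra hcon
      push Not at hcon
      have hsub : (univ : Finset {d : G.Dart // d.fst = v}) ⊆
          {⟨d0, hd0⟩, ⟨sd (θ g) d0, hgd0⟩} := by
        intro x _
        rw [Finset.mem_insert, Finset.mem_singleton]
        by_cases hx : x.1 = d0
        · left; exact Subtype.ext hx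
        · right; exact Subtype.ext (hcon x hx)
      have h3 := Finset.card_le_card hsub
      rw [Finset.card_univ, hc'] at h3
      have h4 := Finset.card_le_two (a := (⟨d0, hd0⟩ : {d : G.Dart // d.fst = v}))
        (b := ⟨sd (θ g) d0, hgd0⟩)
      omega
    obtain ⟨⟨d1, hd1⟩, h10, h11⟩ := hex
    simp only at h10 h11
    have hgd1 : (sd (θ g) d1).fst = v := by rw [NB4_sd_fst, hd1, hgv]
    have h12 : sd (θ g) d1 ≠ d0 := fun hh => h11 (by rw [← hh, hgg])
    have h13 : sd (θ g) d1 ≠ sd (θ g) d0 := fun hh => h10 (by rw [← hgg d1, hh, hgg])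
    have hall : ({⟨d0, hd0⟩, ⟨sd (θ g) d0, hgd0⟩, ⟨d1, hd1⟩, ⟨sd (θ g) d1, hgd1⟩} :
        Finset {d : G.Dart // d.fst = v}) = univ := by
      apply Finset.eq_univ_of_card
      rw [hc']
      rw [Finset.card_insert_of_notMem, Finset.card_insert_of_notMem,
        Finset.card_insert_of_notMem, Finset.card_singleton]
      · rw [Finset.mem_singleton]
        intro hh
        exact hfree d1 (congrArg Subtype.val hh).symm
      · rw [Finset.mem_insert, Finset.mem_singleton]
        rintro (hh | hh)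
        · exact h11 (congrArg Subtype.val hh).symm
        · exact h13 (congrArg Subtype.val hh).symm
      · rw [Finset.mem_insert, Finset.mem_insert, Finset.mem_singleton]
        rintro (hh | hh | hh)
        · exact hfree d0 (congrArg Subtype.val hh).symm
        · exact h10 (congrArg Subtype.val hh).symm
        · exact h12 (congrArg Subtype.val hh).symm
    refine ⟨fun i => if i = 1 then d1 else d0, ?_, ?_, ?_, ?_⟩
    · intro i
      by_cases hi : i = 1
      · simp only [hi, if_true]; exact hd1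
      · simp only [hi, if_false]; exact hd0
    · intro h2; omega
    · intro _ g' hg' hg'v
      have hgg' : g' = g := by
        rcases (hst g').1 hg'v with h5 | h5
        · exact absurd h5 hg'.1
        · exact h5
      subst hgg'
      have e1 : (if (1 : Fin 4) = 1 then d1 else d0) = d1 := if_pos rfl
      have e0 : (if (0 : Fin 4) = 1 then d1 else d0) = d0 := if_neg (by decide)
      simp only [e1, e0]
      refine ⟨h10, h11, fun d hd => ?_⟩
      have h6 : (⟨d, hd⟩ : {d : G.Dart // d.fst = v}) ∈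
          ({⟨d0, hd0⟩, ⟨sd (θ g') d0, hgd0⟩, ⟨d1, hd1⟩, ⟨sd (θ g') d1, hgd1⟩} :
        Finset {d : G.Dart // d.fst = v}) := by rw [hall]; exact Finset.mem_univ _
      simp only [Finset.mem_insert, Finset.mem_singleton, Subtype.mk.injEq] at h6
      exact h6
    · intro h2; omega
  · -- order 4
    have hne : Nonempty {d : G.Dart // d.fst = v} := by
      rw [← Fintype.card_pos_iff, hc']; norm_num
    obtain ⟨⟨d0, hd0⟩⟩ := hne
    have hall : ∀ a, θ a v = v := by
      have h3 : NB4_st θ h h0 v = ⊤ := by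
        apply AddSubgroup.eq_top_of_card_eq
        rw [h1, hA]
      intro a
      have h4 : a ∈ NB4_st θ h h0 v := by rw [h3]; trivial
      exact h4
    have hfst : ∀ a, (sd (θ a) d0).fst = v := fun a => by rw [NB4_sd_fst, hd0, hall a]
    have hinj : Function.Injective
        (fun a : A => (⟨sd (θ a) d0, hfst a⟩ : {d : G.Dart // d.fst = v})) := by
      intro a b hab
      have hab' : sd (θ a) d0 = sd (θ b) d0 := congrArg Subtype.val hab
      have h5 : sd (θ (-b + a)) d0 = d0 := by
        rw [NB4_sd_add θ h, hab', ← NB4_sd_add θ h, neg_add_cancel, NB4_sd_zero θ h0]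
      have h6 := hY d0 _ h5
      have h7 : a = b := by
        have := congrArg (fun z => b + z) h6
        simpa using this
      exact h7
    have hsurj : Function.Surjective
        (fun a : A => (⟨sd (θ a) d0, hfst a⟩ : {d : G.Dart // d.fst = v})) := by
      have h8 : Function.Bijective
          (fun a : A => (⟨sd (θ a) d0, hfst a⟩ : {d : G.Dart // d.fst = v})) := by
        rw [Fintype.bijective_iff_injective_and_card]
        refine ⟨hinj, ?_⟩
        rw [hc', ← Nat.card_eq_fintype_card]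
        exact hA
      exact h8.2
    refine ⟨fun _ => d0, fun _ => hd0, ?_, ?_, ?_⟩
    · intro h2; omega
    · intro h2; omega
    · intro _ d hd
      obtain ⟨a, ha⟩ := hsurj ⟨d, hd⟩
      exact ⟨a, (congrArg Subtype.val ha).symm⟩

end aux

theorem NB4 : NB4_stmt := by
  classical
  intro V A _ _ _ _ G θ hA hG hadd h0 hY
  -- the orbits
  let st : Setoid V :=
    { r := fun u v => ∃ a, θ a u = v
      iseqv :=
        { refl := fun u => ⟨0, h0 u⟩
          symm := by
            rintro u v ⟨a, rfl⟩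
            refine ⟨-a, ?_⟩
            rw [← hadd, neg_add_cancel, h0]
          trans := by
            rintro u v w ⟨a, rfl⟩ ⟨b, rfl⟩
            exact ⟨b + a, hadd b a u⟩ } }
  let rep : V → V := fun v => (Quotient.mk st v).out
  have hrep : ∀ v, ∃ a, θ a (rep v) = v := fun v => Quotient.mk_out (s := st) v
  have hrep2 : ∀ u v, (∃ a, θ a u = v) → rep u = rep v := by
    intro u v huv
    have : Quotient.mk st u = Quotient.mk st v := Quotient.sound huv
    simp only [rep, this]
  have hrr : ∀ v, rep (rep v) = rep v := fun v => hrep2 _ _ (hrep v)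
  let c : V → ℕ := fun v => Nat.card (NB4_st θ hadd h0 v)
  let T : ℕ → Finset V := fun k => univ.filter fun v => rep v = v ∧ c v = k
  have hT : ∀ k v, v ∈ T k ↔ rep v = v ∧ c v = k := by
    intro k v
    simp only [T, Finset.mem_filter, Finset.mem_univ, true_and]
  have hrepT : ∀ k v, v ∈ T k → rep v = v := fun k v hv => ((hT k v).1 hv).1
  have hdisj : ∀ k l, k ≠ l → Disjoint (T k) (T l) := by
    intro k l hkl
    rw [Finset.disjoint_left]
    intro v h1 h2
    exact hkl (((hT k v).1 h1).2.symm.trans ((hT l v).1 h2).2)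
  have hgam : ∀ v, ∃ g : A, c v = 2 → g ∈ O2 A ∧ ∀ a, θ a v = v ↔ a = 0 ∨ a = g := by
    intro v
    by_cases hc : c v = 2
    · obtain ⟨g, hg1, hg2⟩ := NB4_two (NB4_st θ hadd h0 v) hc
      exact ⟨g, fun _ => ⟨hg1, hg2⟩⟩
    · exact ⟨0, fun h => absurd h hc⟩
  choose γ hγ using hgam
  choose f hf1 hf2 hf3 hf4 using NB4_loc θ hA hG hadd h0 hY
  have hmemX : ∀ x ∈ XX (T 1) (T 2) (T 4), rep x.1 = x.1 ∧
      (c x.1 = 1 ∨ (c x.1 = 2 ∧ (x.2 = 0 ∨ x.2 = 1)) ∨ (c x.1 = 4 ∧ x.2 = 0)) := by
    rintro ⟨v, i⟩ hx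
    simp only [XX, Finset.mem_union, Finset.mem_product, Finset.mem_univ, and_true,
      Finset.mem_insert, Finset.mem_singleton, hT] at hx
    rcases hx with (hx | hx) | hx
    · exact ⟨hx.1, Or.inl hx.2⟩
    · exact ⟨hx.1.1, Or.inr (Or.inl ⟨hx.1.2, hx.2⟩)⟩
    · exact ⟨hx.1.1, Or.inr (Or.inr ⟨hx.1.2, hx.2⟩)⟩
  refine ⟨T 1, T 2, T 4, γ, fun x => f x.1 x.2, ?_, ?_⟩
  · refine ⟨hadd, h0, hdisj 1 2 (by norm_num), hdisj 1 4 (by norm_num), hdisj 2 4 (by norm_num),
      ?_, ?_, ?_, ?_, ?_, ?_, ?_, ?_, ?_, ?_⟩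
    · -- cov
      intro d _
      refine ⟨rep d.fst, ?_, hrep d.fst⟩
      rw [Finset.mem_union, Finset.mem_union, hT, hT, hT]
      rcases NB4_div hA (NB4_st θ hadd h0 (rep d.fst)) with h1 | h1 | h1
      · exact Or.inl (Or.inl ⟨hrr _, h1⟩)
      · exact Or.inl (Or.inr ⟨hrr _, h1⟩)
      · exact Or.inr ⟨hrr _, h1⟩
    · -- uni
      intro r hr r' hr' a ha
      have e : ∀ x, x ∈ T 1 ∪ T 2 ∪ T 4 → rep x = x := by
        intro x hx
        rw [Finset.mem_union, Finset.mem_union] at hx
        rcases hx with (hx | hx) | hx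
        · exact hrepT _ _ hx
        · exact hrepT _ _ hx
        · exact hrepT _ _ hx
      rw [← e r hr, ← e r' hr']
      exact hrep2 _ _ ⟨a, ha⟩
    · -- Rst
      intro r hr a ha
      have h1 : c r = 1 := ((hT 1 r).1 hr).2
      have h2 : NB4_st θ hadd h0 r = ⊥ := AddSubgroup.card_eq_one.1 h1
      have h3 : a ∈ NB4_st θ hadd h0 r := ha
      rw [h2] at h3
      exact h3
    · -- Jst
      intro j hj
      exact hγ j ((hT 2 j).1 hj).2
    · -- Kst
      intro k hk a
      have h1 : Nat.card (NB4_st θ hadd h0 k) = Nat.card A := by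
        rw [hA]; exact ((hT 4 k).1 hk).2
      have h2 : NB4_st θ hadd h0 k = ⊤ := AddSubgroup.eq_top_of_card_eq _ h1
      have h3 : a ∈ NB4_st θ hadd h0 k := by rw [h2]; trivial
      exact h3
    · -- fst
      intro x _
      exact ⟨hf1 _ _, hY _⟩
    · -- Rd
      intro r hr d hd
      exact (hf2 r ((hT 1 r).1 hr).2).2 d hd
    · -- Jd
      intro j hj d hd
      have h2 := ((hT 2 j).1 hj).2
      have h3 := hγ j h2
      exact (hf3 j h2 (γ j) h3.1 ((h3.2 _).2 (Or.inr rfl))).2.2 d hd
    · -- Kd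
      intro k hk d hd _
      exact hf4 k ((hT 4 k).1 hk).2 d hd
    · -- inj
      rintro ⟨u, i⟩ hx ⟨v, j⟩ hy a ha
      obtain ⟨hx1, hx2⟩ := hmemX _ hx
      obtain ⟨hy1, hy2⟩ := hmemX _ hy
      simp only at hx1 hx2 hy1 hy2 ha
      have hfa : θ a u = v := by
        have h1 := congrArg (fun d : G.Dart => d.fst) ha
        simp only [NB4_sd_fst, hf1] at h1
        exact h1
      have huv : u = v := by
        rw [← hx1, ← hy1]
        exact hrep2 _ _ ⟨a, hfa⟩
      subst huv
      rcases hx2 with h1 | ⟨h1, hi⟩ | ⟨h1, hi⟩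
      · have h2 : NB4_st θ hadd h0 u = ⊥ := AddSubgroup.card_eq_one.1 h1
        have h3 : a ∈ NB4_st θ hadd h0 u := hfa
        rw [h2] at h3
        have h4 : a = 0 := h3
        subst h4
        rw [NB4_sd_zero θ h0] at ha
        have h5 := (hf2 u h1).1 ha
        exact ⟨by rw [h5], rfl⟩
      · have hj : j = 0 ∨ j = 1 := by
          rcases hy2 with h2 | ⟨_, h2⟩ | ⟨h2, _⟩
          · omega
          · exact h2
          · omega
        have h3 := hγ u h1
        have hgu : θ (γ u) u = u := (h3.2 _).2 (Or.inr rfl)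
        obtain ⟨h4, h5, -⟩ := hf3 u h1 (γ u) h3.1 hgu
        have hgg : ∀ d, sd (θ (γ u)) (sd (θ (γ u)) d) = d := by
          intro d
          rw [← NB4_sd_add θ hadd, h3.1.2, NB4_sd_zero θ h0]
        rcases (h3.2 a).1 hfa with h6 | h6
        · subst h6
          rw [NB4_sd_zero θ h0] at ha
          refine ⟨?_, rfl⟩
          rcases hi with rfl | rfl
          · rcases hj with rfl | rfl
            · rfl
            · exact absurd ha.symm h4
          · rcases hj with rfl | rfl
            · exact absurd ha h4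
            · rfl
        · exfalso
          subst h6
          rcases hi with rfl | rfl
          · rcases hj with rfl | rfl
            · exact h3.1.1 (hY _ _ ha)
            · exact h5 ha.symm
          · rcases hj with rfl | rfl
            · exact h5 (by rw [← ha, hgg])
            · exact h3.1.1 (hY _ _ ha)
      · have hj : j = 0 := by
          rcases hy2 with h2 | ⟨h2, _⟩ | ⟨_, h2⟩
          · omega
          · omega
          · exact h2
        subst hi
        subst hj
        exact ⟨rfl, hY _ _ ha⟩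
  · intro v hv
    rw [hT]
    constructor
    · obtain ⟨a, ha⟩ := hrep v
      have h1 : θ (-a) v = rep v := by
        rw [← ha, ← hadd, neg_add_cancel, h0, ha]
      rw [← h1, hv]
    · have h2 : NB4_st θ hadd h0 v = ⊤ := by
        rw [AddSubgroup.eq_top_iff']
        intro a
        exact hv a
      show Nat.card (NB4_st θ hadd h0 v) = 4
      rw [h2, ← hA]
      exact AddSubgroup.card_top

end Pool.Agent.SYM
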