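import Pool.Agent.helper73.SYM.NB4

/-!
# Project sy: row TW4
-/

set_option autoImplicit false

namespace Pool.Agent.SYM
open Finset CT Polynomial

/-- Vertices with nested neighbourhoods are twins. -/
theorem TW4_twins {V : Type} [Fintype V] (G : SimpleGraph V) (hG : FourRegular G) (x v : V)
    (hxv : v ≠ x) (hsub : ∀ y, G.Adj x y → G.Adj v y) : HasTwins G := by
  classical
  refine ⟨v, x, hxv, ?_⟩
  have hv : Nat.card {w // G.Adj v w} = 4 := hG v
  have hx : Nat.card {w // G.Adj x w} = 4 := hG x
  have hinj : Function.Injective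
      (fun y : {w // G.Adj x w} => (⟨y.1, hsub y.1 y.2⟩ : {w // G.Adj v w})) := by
    intro a b hab
    have h1 : a.1 = b.1 := congrArg (fun z : {w // G.Adj v w} => z.1) hab
    exact Subtype.ext h1
  have hsurj : Function.Surjective
      (fun y : {w // G.Adj x w} => (⟨y.1, hsub y.1 y.2⟩ : {w // G.Adj v w})) := by
    have h8 : Function.Bijective
        (fun y : {w // G.Adj x w} => (⟨y.1, hsub y.1 y.2⟩ : {w // G.Adj v w})) := by
      rw [Fintype.bijective_iff_injective_and_card]
      refine ⟨hinj, ?_⟩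
      rw [← Nat.card_eq_fintype_card, ← Nat.card_eq_fintype_card, hx, hv]
    exact h8.2
  intro w
  refine ⟨fun hw => ?_, hsub w⟩
  obtain ⟨y, hy⟩ := hsurj ⟨w, hw⟩
  have h1 : y.1 = w := congrArg Subtype.val hy
  rw [← h1]
  exact y.2

theorem TW4 : TW4_stmt := by
  classical
  intro V A _ _ _ _ G θ R J K γ κ v hA hG hn hY hD hv htr hR hJK
  have hadd := hD.hom
  have h0 := hD.one
  -- a nonzero element of `A`
  have hA4 : Fintype.card A = 4 := by rw [← Nat.card_eq_fintype_card]; exact hA
  have hne : ∃ a : A, a ≠ 0 := by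
    have : 1 < Fintype.card A := by omega
    haveI := Fintype.one_lt_card_iff_nontrivial.1 this
    exact exists_ne 0
  obtain ⟨a0, ha0⟩ := hne
  have hdart : ∀ x : V, ∃ y, G.Adj x y := by
    intro x
    have h1 : Nat.card {w // G.Adj x w} = 4 := hG x
    have h2 : Nonempty {w // G.Adj x w} := by
      by_contra hcon
      rw [not_nonempty_iff] at hcon
      rw [Nat.card_of_isEmpty] at h1
      omega
    obtain ⟨⟨y, hy⟩⟩ := h2
    exact ⟨y, hy⟩
  -- every vertex is in the orbit of a representative
  have hcov : ∀ x : V, ∃ r ∈ R ∪ J ∪ K, ∃ a, θ a r = x := by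
    intro x
    obtain ⟨y, hy⟩ := hdart x
    exact hD.cov ⟨(x, y), hy⟩ (hY _)
  have hmono : ∀ x y a, θ a x = x → θ a y = y → G.Adj x y → a = 0 := by
    intro x y a hx hy hxy
    exact hY ⟨(x, y), hxy⟩ a (NB4_dart_ext hx hy)
  have hcomm : ∀ a b x, θ a x = x → θ a (θ b x) = θ b x := by
    intro a b x hx
    rw [← hadd, add_comm, hadd, hx]
  have hadj : ∀ a x y, G.Adj x y → G.Adj (θ a x) (θ a y) := fun a x y h =>
    (θ a).map_rel_iff.2 h
  -- trivial stabilisers
  have hRs : ∀ x, (∀ a, θ a x = x → a = 0) → ∃ r ∈ R, ∃ a, θ a r = x := by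
    intro x hx
    obtain ⟨r, hr, a, ha⟩ := hcov x
    rw [Finset.mem_union, Finset.mem_union] at hr
    rcases hr with (hr | hr) | hr
    · exact ⟨r, hr, a, ha⟩
    · exfalso
      obtain ⟨h1, h2⟩ := hD.Jst r hr
      have h3 : θ (γ r) r = r := (h2 _).2 (Or.inr rfl)
      have h4 := hcomm _ a r h3
      rw [ha] at h4
      exact h1.1 (hx _ h4)
    · exfalso
      have h3 := hD.Kst r hr a0
      have h4 := hcomm _ a r h3
      rw [ha] at h4
      exact ha0 (hx _ h4)
  obtain ⟨u0, hu0⟩ := hdart v
  have hN : ∀ u, G.Adj v u → ∀ a, θ a u = u → a = 0 := fun u hu a ha =>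
    hmono v u a (hv a) ha hu
  obtain ⟨r, hr, b, hb⟩ := hRs u0 (hN u0 hu0)
  have hRr : ∀ r' ∈ R, r' = r := fun r' hr' => Finset.card_le_one.1 hR _ hr' _ hr
  -- vertices of trivial stabiliser are adjacent to v
  have hFR : ∀ r' ∈ R, ∀ a, G.Adj v (θ a r') := by
    intro r' hr' a
    rw [hRr r' hr']
    have h1 : θ (a - b) u0 = θ a r := by
      rw [← hb, ← hadd, sub_add_cancel]
    rw [← h1]
    have h2 := hadj (a - b) v u0 hu0
    rw [hv] at h2
    exact h2
  have hF : ∀ x, (∀ a, θ a x = x → a = 0) → G.Adj v x := by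
    intro x hx
    obtain ⟨r', hr', a, ha⟩ := hRs x hx
    rw [← ha]
    exact hFR r' hr' a
  -- v is in K
  have hvK : v ∈ K := by
    obtain ⟨r', hr', a, ha⟩ := hcov v
    have h1 : r' = v := by
      have h2 : θ (-a) v = r' := by rw [← ha, ← hadd, neg_add_cancel, h0]
      rw [← h2, hv]
    subst h1
    rw [Finset.mem_union, Finset.mem_union] at hr'
    rcases hr' with (hr' | hr') | hr'
    · exact absurd (hD.Rst _ hr' a0 (hv a0)) ha0
    · exfalso
      obtain ⟨h1, h2⟩ := hD.Jst _ hr'
      have h3 : (univ : Finset A) ⊆ {0, γ r'} := by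
        intro x _
        rw [Finset.mem_insert, Finset.mem_singleton]
        exact (h2 x).1 (hv x)
      have h4 := Finset.card_le_card h3
      rw [Finset.card_univ, hA4] at h4
      have h5 := Finset.card_le_two (a := (0 : A)) (b := γ r')
      omega
    · exact hr'
  by_cases hK : ∃ x ∈ K, x ≠ v
  · obtain ⟨x, hx, hxv⟩ := hK
    apply TW4_twins G hG x v (Ne.symm hxv)
    intro y hy
    exact hF y fun a ha => hmono x y a (hD.Kst x hx a) ha hy
  · push Not at hK
    have hK1 : 1 ≤ K.card := Finset.card_pos.2 ⟨v, hvK⟩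
    have hJ1 : J.card ≤ 1 := by omega
    -- vertices of K-type
    have hKx : ∀ k ∈ K, ∀ a, θ a k = v := by
      intro k hk a
      rw [hK k hk, hv]
    by_cases hJ : J = ∅
    · exfalso
      have hsub : (univ : Finset V) ⊆ insert v (univ.filter fun w => G.Adj v w) := by
        intro x _
        rw [Finset.mem_insert, Finset.mem_filter]
        obtain ⟨r', hr', a, ha⟩ := hcov x
        rw [Finset.mem_union, Finset.mem_union] at hr'
        rcases hr' with (hr' | hr') | hr'
        · right
          rw [← ha]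
          exact ⟨Finset.mem_univ _, hFR r' hr' a⟩
        · rw [hJ] at hr'
          exact absurd hr' (Finset.notMem_empty _)
        · left
          rw [← ha]
          exact hKx r' hr' a
      have h1 := Finset.card_le_card hsub
      have h2 := Finset.card_insert_le v (univ.filter fun w => G.Adj v w)
      have h3 : (univ.filter fun w => G.Adj v w).card = 4 := by
        have h4 : Nat.card {w // G.Adj v w} = 4 := hG v
        rw [Nat.card_eq_fintype_card, Fintype.card_subtype] at h4
        exact h4
      rw [Finset.card_univ] at h1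
      omega
    · obtain ⟨x, hx⟩ := Finset.nonempty_iff_ne_empty.2 hJ
      have hJx : ∀ j ∈ J, j = x := fun j hj => Finset.card_le_one.1 hJ1 _ hj _ hx
      obtain ⟨hγ1, hγ2⟩ := hD.Jst x hx
      have hγx : θ (γ x) x = x := (hγ2 _).2 (Or.inr rfl)
      have hxv : v ≠ x := by
        intro h
        exact (Finset.disjoint_left.1 hD.dJK hx) (h ▸ hvK)
      apply TW4_twins G hG x v hxv
      intro y hy
      obtain ⟨r', hr', a, ha⟩ := hcov y
      rw [Finset.mem_union, Finset.mem_union] at hr'
      rcases hr' with (hr' | hr') | hr'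
      · rw [← ha]
        exact hFR r' hr' a
      · exfalso
        rw [hJx r' hr'] at ha
        have h4 := hcomm _ a x hγx
        rw [ha] at h4
        exact hγ1.1 (hmono x y _ hγx h4 hy)
      · exfalso
        have h5 : y = v := by rw [← ha]; exact hKx r' hr' a
        rw [h5] at hy
        exact hγ1.1 (hN x hy.symm _ hγx)

end Pool.Agent.SYM
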